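import Mathlib

/-!
# The one-parameter dynamical Bogomolov conjecture, as literally posed, fails for isotrivial families

Base curve `T = 𝔸¹` over `ℚbar`.  For every degree `d ≥ 2` the non-constant family
`f_t(x) = (x - t) ^ d + t` with the non-constant marked points `a_t = t + 2`, `b_t = t` satisfies
(b) (the points are dynamically related) but not (a) (`ĥ_{f_t}(a_t) = log 2` for every `t`).
-/

open Filter Topology

namespace Pool.Agent.Results.MP_deaef0_nt.IsotrivialFamily

/-- An endomorphism of degree `d` of the projective line over a field `F`, written as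
`[form 0 : form 1]` with binary forms of degree `d` without common zero. -/
structure Endo (F : Type) [Field F] (d : ℕ) where
  /-- the two forms -/
  form : Fin 2 → MvPolynomial (Fin 2) F
  homog : ∀ i, (form i).IsHomogeneous d
  nonzero : ∀ v : Fin 2 → F, v ≠ 0 → (fun i => MvPolynomial.eval v (form i)) ≠ 0

/-- The action of an endomorphism on points of the projective line. -/
noncomputable def Endo.act {F : Type} [Field F] {d : ℕ} (g : Endo F d)
    (p : Projectivization F (Fin 2 → F)) : Projectivization F (Fin 2 → F) :=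
  Projectivization.mk F (fun i => MvPolynomial.eval p.rep (g.form i))
    (g.nonzero _ p.rep_nonzero)

open Classical in
/-- The absolute logarithmic Weil height on the projective line (`F` is `ℚbar` below). -/
noncomputable def weil {F : Type} [Field F] [CharZero F]
    (p : Projectivization F (Fin 2 → F)) : ℝ :=
  if p.rep 1 = 0 then 0 else NumberField.absLogHeight₁ (p.rep 0 / p.rep 1)

/-- The canonical height `lim d ^ (-n) h (g ^ n (p))`. -/
noncomputable def canonicalHeight {F : Type} [Field F] [CharZero F] {d : ℕ} (g : Endo F d)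
    (p : Projectivization F (Fin 2 → F)) : ℝ :=
  limUnder atTop (fun n : ℕ => ((d : ℝ) ^ n)⁻¹ * weil (g.act^[n] p))

/-- An algebraic map from the affine line `T = 𝔸¹` over `F` to the projective line. -/
structure Marked (F : Type) [Field F] where
  /-- homogeneous coordinates -/
  coord : Fin 2 → Polynomial F
  nonzero : ∀ t : F, (fun i => (coord i).eval t) ≠ 0

/-- The value of a marked point at a parameter. -/
noncomputable def Marked.at {F : Type} [Field F] (a : Marked F) (t : F) :
    Projectivization F (Fin 2 → F) :=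
  Projectivization.mk F (fun i => (a.coord i).eval t) (a.nonzero t)

/-- The marked point is not constant. -/
def Marked.Nonconstant {F : Type} [Field F] (a : Marked F) : Prop := ∃ s t, a.at s ≠ a.at t

/-- An algebraic map from the affine line `T = 𝔸¹` over `F` to `End_d^1`. -/
structure EndoFamily (F : Type) [Field F] (d : ℕ) where
  /-- the two forms, with coefficients in `F[t]` -/
  form : Fin 2 → MvPolynomial (Fin 2) (Polynomial F)
  homog : ∀ i, (form i).IsHomogeneous d
  nonzero : ∀ t : F, ∀ v : Fin 2 → F, v ≠ 0 →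
    (fun i => MvPolynomial.eval v (MvPolynomial.map (Polynomial.evalRingHom t) (form i))) ≠ 0

/-- The member of the family at a parameter. -/
noncomputable def EndoFamily.at {F : Type} [Field F] {d : ℕ} (f : EndoFamily F d) (t : F) :
    Endo F d where
  form i := MvPolynomial.map (Polynomial.evalRingHom t) (f.form i)
  homog i := (f.homog i).map _
  nonzero v hv := f.nonzero t v hv

/-- The family is not constant as a map to the coefficient space `ℙ^{2d+1}`. -/
def EndoFamily.Nonconstant {F : Type} [Field F] {d : ℕ} (f : EndoFamily F d) : Prop :=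
  ∃ s t, ¬ ∃ c : F, c ≠ 0 ∧ ∀ i, (f.at s).form i = MvPolynomial.C c * (f.at t).form i

/-- Statement (a): for every `ε > 0` infinitely many parameters make both heights at most `ε`. -/
def SmallInfinite {F : Type} [Field F] [CharZero F] {d : ℕ} (f : EndoFamily F d)
    (a b : Marked F) : Prop :=
  ∀ ε : ℝ, 0 < ε → {t : F | canonicalHeight (f.at t) (a.at t) ≤ ε ∧
    canonicalHeight (f.at t) (b.at t) ≤ ε}.Infinite

/-- The bidegree weights of the coordinates on `ℙ¹ × ℙ¹`. -/
def biweight : Fin 2 ⊕ Fin 2 → ℕ × ℕ := Sum.elim (fun _ => (1, 0)) (fun _ => (0, 1))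

/-- Statement (b), over a field `K` containing `F[t]` (below `K` is an algebraic closure of the
function field `F(T)` of `T = 𝔸¹`): some algebraic curve in `ℙ¹ × ℙ¹` over `K`, the zero locus of a
nonzero bihomogeneous form `Φ`, contains `(a, b)` and is mapped into itself by `f × f`. -/
def Related (K : Type) [Field K] {F : Type} [Field F] [Algebra (Polynomial F) K] {d : ℕ}
    (f : EndoFamily F d) (a b : Marked F) : Prop :=
  ∃ (m : ℕ × ℕ) (Φ : MvPolynomial (Fin 2 ⊕ Fin 2) K), Φ ≠ 0 ∧
    MvPolynomial.IsWeightedHomogeneous biweight Φ m ∧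
    MvPolynomial.eval (Sum.elim (fun i => algebraMap (Polynomial F) K (a.coord i))
      (fun i => algebraMap (Polynomial F) K (b.coord i))) Φ = 0 ∧
    ∀ x y : Fin 2 → K, x ≠ 0 → y ≠ 0 → MvPolynomial.eval (Sum.elim x y) Φ = 0 →
      MvPolynomial.eval (Sum.elim (fun i => MvPolynomial.aeval x (f.form i))
        (fun i => MvPolynomial.aeval y (f.form i))) Φ = 0

/-! ### Generalities -/

theorem eval_smul_of_homog {F : Type} [Field F] {d : ℕ} {φ : MvPolynomial (Fin 2) F}
    (hφ : φ.IsHomogeneous d) (c : F) (v : Fin 2 → F) :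
    MvPolynomial.eval (c • v) φ = c ^ d * MvPolynomial.eval v φ := by
  rw [MvPolynomial.eval_eq', MvPolynomial.eval_eq', Finset.mul_sum]
  apply Finset.sum_congr rfl
  intro s hs
  have h1 : s.degree = d := by
    by_contra h
    exact (MvPolynomial.mem_support_iff.1 hs) (hφ.coeff_eq_zero h)
  have h2 : ∏ i, (c • v) i ^ s i = c ^ d * ∏ i, v i ^ s i := by
    simp only [Pi.smul_apply, smul_eq_mul, mul_pow, Finset.prod_mul_distrib]
    congr 1
    rw [Finset.prod_pow_eq_pow_sum, ← h1, Finsupp.degree_eq_sum]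
  rw [h2]; ring

theorem act_mk {F : Type} [Field F] {d : ℕ} (g : Endo F d) (v : Fin 2 → F) (hv : v ≠ 0) :
    g.act (Projectivization.mk F v hv) =
      Projectivization.mk F (fun i => MvPolynomial.eval v (g.form i)) (g.nonzero v hv) := by
  obtain ⟨c, hc⟩ := Projectivization.exists_smul_eq_mk_rep F v hv
  rw [Endo.act, Projectivization.mk_eq_mk_iff]
  refine ⟨c ^ d, ?_⟩
  funext i
  have h1 := eval_smul_of_homog (g.homog i) (c : F) v
  have h2 : (c : F) • v = (Projectivization.mk F v hv).rep := hc
  rw [h2] at h1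
  rw [h1]
  simp [Units.smul_def]

theorem weil_mk {F : Type} [Field F] [CharZero F] (v : Fin 2 → F) (hv : v ≠ 0) (h1 : v 1 ≠ 0) :
    weil (Projectivization.mk F v hv) = NumberField.absLogHeight₁ (v 0 / v 1) := by
  obtain ⟨c, hc⟩ := Projectivization.exists_smul_eq_mk_rep F v hv
  have e0 : (Projectivization.mk F v hv).rep 0 = (c : F) * v 0 := by
    rw [← hc]; simp [Units.smul_def]
  have e1 : (Projectivization.mk F v hv).rep 1 = (c : F) * v 1 := by
    rw [← hc]; simp [Units.smul_def]
  have hc0 : (c : F) ≠ 0 := c.ne_zero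
  rw [weil, e0, e1, if_neg (mul_ne_zero hc0 h1), mul_div_mul_left _ _ hc0]

/-! ### Heights of translates -/

/-- The field of algebraic numbers. -/
abbrev Qbar : Type := AlgebraicClosure ℚ

theorem isIntegral_Qbar (t : Qbar) : IsIntegral ℚ t := by
  have h : @IsIntegral ℚ Qbar _ _ (@AlgebraicClosure.instAlgebra ℚ _ ℚ _ _) t :=
    (@AlgebraicClosure.isAlgebraic ℚ _).isAlgebraic t |>.isIntegral
  convert h
  exact Subsingleton.elim _ _

theorem absLogHeight_eq (F : IntermediateField ℚ Qbar) [NumberField F] (y : F)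
    (hy : IntermediateField.adjoin ℚ {(y : Qbar)} = F) :
    NumberField.absLogHeight₁ (y : Qbar) =
      (Module.finrank ℚ F : ℝ)⁻¹ * Height.logHeight₁ y := by
  obtain ⟨y, hyF⟩ := y
  simp only at hy ⊢
  subst hy
  have hint : IsIntegral ℚ y := isIntegral_Qbar y
  rw [NumberField.absLogHeight₁, NumberField.absMulHeight₁, dif_pos hint,
    Real.log_rpow (Height.mulHeight₁_pos _), Height.logHeight₁_eq_log_mulHeight₁]
  rfl

theorem logHeight_two (F : Type) [Field F] [NumberField F] :
    Height.logHeight₁ (2 : F) = (Module.finrank ℚ F : ℝ) * Real.log 2 := by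
  rw [NumberField.logHeight₁_eq]
  have h1 : ∀ v : NumberField.InfinitePlace F, Real.posLog (v (2 : F)) = Real.log 2 := by
    intro v
    have : v (2 : F) = 2 := by
      have := NumberField.InfinitePlace.map_natCast v 2
      simpa using this
    rw [this, Real.posLog_eq_log (by norm_num)]
  have h2 : ∀ v : NumberField.FinitePlace F, Real.posLog (v (2 : F)) = 0 := by
    intro v
    have hv : IsNonarchimedean (v ·) := NumberField.FinitePlace.add_le v
    have h3 : v ((2 : ℤ) : F) ≤ 1 := IsNonarchimedean.apply_intCast_le_one hv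
    rw [Real.posLog_eq_zero_iff, abs_of_nonneg (apply_nonneg v _)]
    simpa using h3
  simp only [h1]
  rw [finsum_eq_zero_of_forall_eq_zero h2, add_zero, ← Finset.sum_mul]
  congr 1
  exact_mod_cast NumberField.InfinitePlace.sum_mult_eq (K := F)

theorem tendsto_height (d : ℕ) (hd : 2 ≤ d) (t : Qbar) :
    Tendsto (fun n : ℕ => ((d : ℝ) ^ n)⁻¹ *
      NumberField.absLogHeight₁ (t + 2 ^ (d ^ n))) atTop (𝓝 (Real.log 2)) := by
  have hint : IsIntegral ℚ t := isIntegral_Qbar t
  have : FiniteDimensional ℚ (IntermediateField.adjoin ℚ {t}) :=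
    IntermediateField.adjoin.finiteDimensional hint
  have : NumberField (IntermediateField.adjoin ℚ {t}) := {}
  set F := IntermediateField.adjoin ℚ {t} with hF
  set g : F := IntermediateField.AdjoinSimple.gen ℚ t with hg
  have hgt : (g : Qbar) = t := IntermediateField.AdjoinSimple.coe_gen ℚ t
  set m : ℝ := (Module.finrank ℚ F : ℝ) with hm
  have hm0 : 0 < m := by
    rw [hm]; exact_mod_cast Module.finrank_pos
  set w : ℝ := Height.totalWeight F * Real.log 2 + Height.logHeight₁ g with hw
  have hw0 : 0 ≤ w := by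
    have := Height.zero_le_logHeight₁ g
    have := Real.log_nonneg (by norm_num : (1 : ℝ) ≤ 2)
    positivity
  have habs : ∀ N : ℕ, NumberField.absLogHeight₁ (t + (N : Qbar)) =
      m⁻¹ * Height.logHeight₁ (g + (N : F)) := by
    intro N
    have h1 : ((g + (N : F) : F) : Qbar) = t + (N : Qbar) := by
      push_cast
      rw [hgt]
    rw [← h1]
    apply absLogHeight_eq
    rw [h1, hF]
    apply le_antisymm
    · rw [IntermediateField.adjoin_simple_le_iff]
      exact add_mem (IntermediateField.mem_adjoin_simple_self ℚ t) (natCast_mem _ N)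
    · rw [IntermediateField.adjoin_simple_le_iff]
      have h2 : t = (t + (N : Qbar)) - (N : Qbar) := by ring
      rw [h2]
      simpa using sub_mem (IntermediateField.mem_adjoin_simple_self ℚ (t + (N : Qbar)))
        (natCast_mem _ N)
  have hbound : ∀ n : ℕ, |((d : ℝ) ^ n)⁻¹ * NumberField.absLogHeight₁ (t + 2 ^ (d ^ n)) -
      Real.log 2| ≤ (m⁻¹ * w) * ((d : ℝ)⁻¹) ^ n := by
    intro n
    have h1 : (t + 2 ^ (d ^ n) : Qbar) = t + ((2 ^ (d ^ n) : ℕ) : Qbar) := by push_cast; ring
    rw [h1, habs]
    set N : ℕ := 2 ^ (d ^ n) with hN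
    have hNF : (N : F) = (2 : F) ^ (d ^ n) := by rw [hN]; push_cast; ring
    have hNh : Height.logHeight₁ (N : F) = (d : ℝ) ^ n * (m * Real.log 2) := by
      rw [hNF, Height.logHeight₁_pow, logHeight_two]
      push_cast
      ring
    have hup : Height.logHeight₁ (g + (N : F)) ≤ w + Height.logHeight₁ (N : F) := by
      have := Height.logHeight₁_add_le g (N : F)
      linarith
    have hlo : Height.logHeight₁ (N : F) ≤ w + Height.logHeight₁ (g + (N : F)) := by
      have := Height.logHeight₁_sub_le (g + (N : F)) g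
      have h2 : g + (N : F) - g = (N : F) := by ring
      rw [h2] at this
      linarith
    have hd0 : (0 : ℝ) < (d : ℝ) ^ n := by positivity
    have h3 : ((d : ℝ) ^ n)⁻¹ * (m⁻¹ * Height.logHeight₁ (g + (N : F))) - Real.log 2 =
        ((d : ℝ) ^ n)⁻¹ * m⁻¹ * (Height.logHeight₁ (g + (N : F)) -
          Height.logHeight₁ (N : F)) := by
      rw [hNh]
      field_simp
    rw [h3, abs_mul, abs_of_pos (by positivity : 0 < ((d : ℝ) ^ n)⁻¹ * m⁻¹)]
    have h4 : |Height.logHeight₁ (g + (N : F)) - Height.logHeight₁ (N : F)| ≤ w := by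
      rw [abs_le]; constructor <;> linarith
    calc ((d : ℝ) ^ n)⁻¹ * m⁻¹ * |Height.logHeight₁ (g + (N : F)) - Height.logHeight₁ (N : F)|
        ≤ ((d : ℝ) ^ n)⁻¹ * m⁻¹ * w := by gcongr
      _ = (m⁻¹ * w) * ((d : ℝ)⁻¹) ^ n := by rw [inv_pow]; ring
  have hd1 : ((d : ℝ)⁻¹) < 1 := by
    apply inv_lt_one_of_one_lt₀
    exact_mod_cast (by omega : 1 < d)
  have hlim : Tendsto (fun n : ℕ => (m⁻¹ * w) * ((d : ℝ)⁻¹) ^ n) atTop (𝓝 0) := by
    have := (tendsto_pow_atTop_nhds_zero_of_lt_one (by positivity : (0 : ℝ) ≤ (d : ℝ)⁻¹)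
      hd1).const_mul (m⁻¹ * w)
    simpa using this
  rw [tendsto_iff_norm_sub_tendsto_zero]
  exact squeeze_zero (fun n => norm_nonneg _) (fun n => by
    rw [Real.norm_eq_abs]; exact hbound n) hlim

/-! ### The family -/

/-- `a_t = t + 2`. -/
noncomputable def ptA : Marked Qbar where
  coord := ![Polynomial.X + 2, 1]
  nonzero t h := by
    have := congrFun h 1
    simp at this

/-- `b_t = t`. -/
noncomputable def ptB : Marked Qbar where
  coord := ![Polynomial.X, 1]
  nonzero t h := by
    have := congrFun h 1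
    simp at this

/-- The forms of `f_t(x) = (x - t) ^ d + t`. -/
noncomputable def famForm (d : ℕ) : Fin 2 → MvPolynomial (Fin 2) (Polynomial Qbar) :=
  ![(MvPolynomial.X 0 - MvPolynomial.C Polynomial.X * MvPolynomial.X 1) ^ d +
      MvPolynomial.C Polynomial.X * MvPolynomial.X 1 ^ d,
    MvPolynomial.X 1 ^ d]

theorem eval_form0 (d : ℕ) {F : Type} [Field F] (φ : Polynomial Qbar →+* F) (v : Fin 2 → F) :
    MvPolynomial.eval v (MvPolynomial.map φ (famForm d 0)) =
      (v 0 - φ Polynomial.X * v 1) ^ d + φ Polynomial.X * v 1 ^ d := by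
  simp [famForm]

theorem eval_form1 (d : ℕ) {F : Type} [Field F] (φ : Polynomial Qbar →+* F) (v : Fin 2 → F) :
    MvPolynomial.eval v (MvPolynomial.map φ (famForm d 1)) = v 1 ^ d := by
  simp [famForm]

/-- The family `f_t(x) = (x - t) ^ d + t`. -/
noncomputable def fam (d : ℕ) (hd : 2 ≤ d) : EndoFamily Qbar d where
  form := famForm d
  homog i := by
    have h0 : (MvPolynomial.X 0 : MvPolynomial (Fin 2) (Polynomial Qbar)).IsHomogeneous 1 :=
      MvPolynomial.isHomogeneous_X _ 0
    have h1 : (MvPolynomial.X 1 : MvPolynomial (Fin 2) (Polynomial Qbar)).IsHomogeneous 1 :=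
      MvPolynomial.isHomogeneous_X _ 1
    have h2 := (h0.sub (h1.C_mul Polynomial.X)).pow d
    have h3 := (h1.pow d)
    rw [one_mul] at h2 h3
    fin_cases i
    · exact h2.add (h3.C_mul Polynomial.X)
    · exact h3
  nonzero t v hv h := by
    have e0 := congrFun h 0
    have e1 := congrFun h 1
    simp only [eval_form0, eval_form1, Pi.zero_apply] at e0 e1
    have h1 : v 1 = 0 := by
      by_contra hne
      exact pow_ne_zero d hne e1
    rw [h1] at e0
    have h0 : v 0 = 0 := by
      by_contra hne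
      have : (v 0) ^ d = 0 := by simpa [show d ≠ 0 by omega] using e0
      exact pow_ne_zero d hne this
    apply hv
    funext i
    fin_cases i
    · exact h0
    · exact h1

theorem act_orbit (d : ℕ) (hd : 2 ≤ d) (t : Qbar) (n : ℕ) :
    ∃ h : (![t + 2 ^ (d ^ n), 1] : Fin 2 → Qbar) ≠ 0,
      ((fam d hd).at t).act^[n] (ptA.at t) = Projectivization.mk Qbar _ h := by
  have hne : ∀ x : Qbar, (![x, 1] : Fin 2 → Qbar) ≠ 0 := by
    intro x h
    have := congrFun h 1
    simp at this
  refine ⟨hne _, ?_⟩
  induction n with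
  | zero =>
    simp only [Function.iterate_zero, id_eq, pow_zero, pow_one]
    rw [Marked.at, Projectivization.mk_eq_mk_iff]
    refine ⟨1, ?_⟩
    funext i
    fin_cases i <;> simp [ptA]
  | succ n ih =>
    rw [Function.iterate_succ_apply', ih, act_mk, Projectivization.mk_eq_mk_iff]
    refine ⟨1, ?_⟩
    funext i
    fin_cases i
    · show (1 : Qbarˣ) • (![t + 2 ^ (d ^ (n + 1)), 1] : Fin 2 → Qbar) 0 =
        MvPolynomial.eval ![t + 2 ^ (d ^ n), 1]
          (MvPolynomial.map (Polynomial.evalRingHom t) (famForm d 0))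
      rw [eval_form0]
      simp only [Matrix.cons_val_zero, Matrix.cons_val_one, Polynomial.coe_evalRingHom,
        Polynomial.eval_X, one_smul, one_pow, mul_one]
      rw [add_sub_cancel_left, ← pow_mul, pow_succ]
      ring
    · show (1 : Qbarˣ) • (![t + 2 ^ (d ^ (n + 1)), 1] : Fin 2 → Qbar) 1 =
        MvPolynomial.eval ![t + 2 ^ (d ^ n), 1]
          (MvPolynomial.map (Polynomial.evalRingHom t) (famForm d 1))
      rw [eval_form1]
      simp

theorem canonicalHeight_ptA (d : ℕ) (hd : 2 ≤ d) (t : Qbar) :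
    canonicalHeight ((fam d hd).at t) (ptA.at t) = Real.log 2 := by
  apply Tendsto.limUnder_eq
  refine (tendsto_height d hd t).congr ?_
  intro n
  obtain ⟨h, hn⟩ := act_orbit d hd t n
  rw [hn, weil_mk _ h (by simp)]
  simp

theorem related (d : ℕ) (hd : 2 ≤ d) :
    Related (AlgebraicClosure (RatFunc (AlgebraicClosure ℚ))) (fam d hd) ptA ptB := by
  set toK := algebraMap (Polynomial Qbar) (AlgebraicClosure (RatFunc Qbar)) with htoK
  set τ : AlgebraicClosure (RatFunc Qbar) := toK Polynomial.X with hτ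
  refine ⟨(0, 1), MvPolynomial.X (Sum.inr 0) - MvPolynomial.C τ * MvPolynomial.X (Sum.inr 1),
    ?_, ?_, ?_, ?_⟩
  · intro h
    have := congrArg (MvPolynomial.eval
      (Sum.elim (fun _ => (0 : AlgebraicClosure (RatFunc Qbar))) ![1, 0])) h
    simp at this
  · have h0 := MvPolynomial.isWeightedHomogeneous_X (AlgebraicClosure (RatFunc Qbar)) biweight
      (Sum.inr 0)
    have h1 := MvPolynomial.isWeightedHomogeneous_X (AlgebraicClosure (RatFunc Qbar)) biweight
      (Sum.inr 1)
    have h2 := (MvPolynomial.isWeightedHomogeneous_C biweight τ).mul h1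
    rw [zero_add] at h2
    exact Submodule.sub_mem (MvPolynomial.weightedHomogeneousSubmodule
      (AlgebraicClosure (RatFunc Qbar)) biweight (0, 1)) h0 h2
  · simp [ptB, hτ, htoK]
  · intro x y _ _ hxy
    simp only [map_sub, map_mul, MvPolynomial.eval_X, MvPolynomial.eval_C, Sum.elim_inr] at hxy ⊢
    have e0 : MvPolynomial.aeval y ((fam d hd).form 0) = (y 0 - τ * y 1) ^ d + τ * y 1 ^ d := by
      rw [MvPolynomial.aeval_def, ← MvPolynomial.eval_map]
      exact eval_form0 d toK y
    have e1 : MvPolynomial.aeval y ((fam d hd).form 1) = y 1 ^ d := by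
      rw [MvPolynomial.aeval_def, ← MvPolynomial.eval_map]
      exact eval_form1 d toK y
    rw [e0, e1, hxy, zero_pow (by omega)]
    ring

theorem fam_nonconstant (d : ℕ) (hd : 2 ≤ d) : (fam d hd).Nonconstant := by
  refine ⟨0, 1, ?_⟩
  rintro ⟨c, -, hc⟩
  have h0 : MvPolynomial.map (Polynomial.evalRingHom (0 : Qbar)) (famForm d 0) =
      MvPolynomial.C c * MvPolynomial.map (Polynomial.evalRingHom (1 : Qbar)) (famForm d 0) := hc 0
  have h1 := congrArg (MvPolynomial.eval ![(1 : Qbar), 1]) h0
  have h2 := congrArg (MvPolynomial.eval ![(2 : Qbar), 1]) h0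
  rw [map_mul, eval_form0, eval_form0] at h1 h2
  have hd0 : d ≠ 0 := by omega
  simp [hd0] at h1 h2
  rw [← h1] at h2
  have h3 : ((2 ^ d : ℕ) : Qbar) = ((2 : ℕ) : Qbar) := by
    push_cast
    rw [h2]; norm_num
  have h4 : 2 ^ d = 2 := by exact_mod_cast h3
  have h5 : 2 ^ 2 ≤ 2 ^ d := Nat.pow_le_pow_right (by norm_num) hd
  omega

theorem ptA_nonconstant : ptA.Nonconstant := by
  refine ⟨0, 1, ?_⟩
  intro h
  rw [Marked.at, Marked.at, Projectivization.mk_eq_mk_iff] at h
  obtain ⟨c, hc⟩ := h
  have h1 := congrFun hc 1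
  have h0 := congrFun hc 0
  simp [ptA, Units.smul_def] at h0 h1
  rw [h1] at h0
  norm_num at h0

theorem ptB_nonconstant : ptB.Nonconstant := by
  refine ⟨0, 1, ?_⟩
  intro h
  rw [Marked.at, Marked.at, Projectivization.mk_eq_mk_iff] at h
  obtain ⟨c, hc⟩ := h
  have h0 := congrFun hc 0
  simp [ptB, Units.smul_def] at h0

/-- For every degree `d ≥ 2` there are a non-constant family `f : 𝔸¹ → End_d^1` and non-constant
marked points `a, b : 𝔸¹ → ℙ¹` over `ℚbar` for which (b) holds and (a) fails. -/
theorem result (d : ℕ) (hd : 2 ≤ d) :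
    ∃ (f : EndoFamily (AlgebraicClosure ℚ) d) (a b : Marked (AlgebraicClosure ℚ)),
      f.Nonconstant ∧ a.Nonconstant ∧ b.Nonconstant ∧
      Related (AlgebraicClosure (RatFunc (AlgebraicClosure ℚ))) f a b ∧
      ¬ SmallInfinite f a b := by
  refine ⟨fam d hd, ptA, ptB, fam_nonconstant d hd, ptA_nonconstant, ptB_nonconstant,
    related d hd, ?_⟩
  intro h
  have h1 := h (1 / 2) (by norm_num)
  apply h1
  have : {t : Qbar | canonicalHeight ((fam d hd).at t) (ptA.at t) ≤ 1 / 2 ∧
      canonicalHeight ((fam d hd).at t) (ptB.at t) ≤ 1 / 2} = ∅ := by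
    ext t
    simp only [Set.mem_ofPred_eq, Set.mem_empty_iff_false, iff_false, not_and]
    intro h2
    rw [canonicalHeight_ptA] at h2
    have := Real.log_two_gt_d9
    linarith
  rw [this]
  exact Set.finite_empty

end Pool.Agent.Results.MP_deaef0_nt.IsotrivialFamily
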